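import Pool.Agent.H95.NV.Targets4

/-!
# (MCK) irreducibility over `ℚ`
-/

set_option autoImplicit false

open MeasureTheory Set Filter NumberField
open scoped Real nonZeroDivisors

namespace Pool.Agent.H83.NV

open Pool.Agent.H95.NV NumberField
open Pool.Agent.H65.CM4 (dg)
open Pool.Agent.H89.NV (TrK CK tp)

lemma mapRingHom_inj {K F : Type} [Field K] [Field F] (i : K →+* F) :
    Function.Injective (RingOfIntegers.mapRingHom i) := by
  intro x y h
  have h1 := congrArg (fun z : 𝓞 F => (z : F)) h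
  exact RingOfIntegers.ext (i.injective h1)

lemma map_ne_bot {K F : Type} [Field K] [NumberField K] [Field F] [NumberField F] (i : K →+* F)
    {A : Ideal (𝓞 K)} (hA : A ≠ ⊥) : A.map (RingOfIntegers.mapRingHom i) ≠ ⊥ := by
  intro h
  exact hA ((Ideal.map_eq_bot_iff_of_injective (mapRingHom_inj i)).1 h)

theorem finrank_K (hBRK : T_BRK) (k K : Type) [Field k] [NumberField k] [IsTotallyReal k]
    [Field K] [NumberField K] [Algebra k K] (D : 𝓞 k) (h : CK D K) :
    Module.finrank ℚ K = 2 * dg k := by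
  have hq : Algebra.IsQuadraticExtension k K := ((hBRK k K D).1 h).1
  have h1 := Module.finrank_mul_finrank ℚ k K
  have h2 : Module.finrank k K = 2 := Algebra.IsQuadraticExtension.finrank_eq_two k K
  rw [h2] at h1
  unfold dg
  rw [← h1, mul_comm]

theorem pf_MCK (hNRM : T_NRM) (hNRD : T_NRD) (hCJX : T_CJX) (hEMJ : T_EMJ) (hBRK : T_BRK) :
    T_MCK := by
  intro k K _ _ _ _ _ _ D h htp hexc ψ hψ hN F _ _ i j hij hcl
  by_contra hcon
  push Not at hcon
  apply hN
  obtain ⟨c, hcs, hcc, hcψ⟩ := hCJX k K D h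
  have hconj := hcψ ψ hψ
  obtain ⟨n1i, n2i, n3i⟩ := hNRM K F i
  obtain ⟨n1j, n2j, n3j⟩ := hNRM K F j
  -- the norms as nonzero ideals
  have hz : ∀ (A : Ideal (𝓞 F)) (hA : A ≠ ⊥) (I : (Ideal (𝓞 K))⁰),
      (I : Ideal (𝓞 K)) = nrm i A → ψ (ClassGroup.mk0 I) * ψ (ClassGroup.mk0 I) = 1 := by
    intro A hA I hI
    let A0 : (Ideal (𝓞 F))⁰ := ⟨A, mem_nonZeroDivisors_of_ne_zero hA⟩
    let J : (Ideal (𝓞 K))⁰ := ⟨nrm j A, mem_nonZeroDivisors_of_ne_zero (n1j A hA)⟩
    have hIJ : ψ (ClassGroup.mk0 I) = ψ (ClassGroup.mk0 J) := hcon A0 I J hI rfl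
    rcases hEMJ k K D h htp hexc c hcs F i j hij hcl with hc | ⟨τ, hτj, hτi⟩
    · have hj : j = i.comp ((c : K ≃+* K) : K →+* K) := RingHom.ext fun x => hc x
      have h1 : (I : Ideal (𝓞 K)) =
          (J : Ideal (𝓞 K)).map (RingOfIntegers.mapRingHom (c : K →+* K)) := by
        rw [hI]
        have h2 := n3i (c : K ≃+* K) A
        rw [← hj] at h2
        exact h2.symm
      have h3 := hconj J I h1
      have h4 : ψ (ClassGroup.mk0 I) * ψ (ClassGroup.mk0 I) =
          (ψ (ClassGroup.mk0 J))⁻¹ * ψ (ClassGroup.mk0 J) := by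
        rw [← h3, ← hIJ]
      rw [h4]
      exact inv_mul_cancel _
    · let A' : Ideal (𝓞 F) := A.map (RingOfIntegers.mapRingHom (τ : F →+* F))
      have hA' : A' ≠ ⊥ := map_ne_bot _ hA
      let A0' : (Ideal (𝓞 F))⁰ := ⟨A', mem_nonZeroDivisors_of_ne_zero hA'⟩
      let I' : (Ideal (𝓞 K))⁰ := ⟨nrm i A', mem_nonZeroDivisors_of_ne_zero (n1i A' hA')⟩
      have hej : (τ : F →+* F).comp j = j := RingHom.ext fun x => hτj x
      have hei : (τ : F →+* F).comp i = i.comp ((c : K ≃+* K) : K →+* K) :=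
        RingHom.ext fun x => hτi x
      have h1 : nrm j A' = nrm j A := by
        have h2 := n2j τ A
        rw [hej] at h2
        exact h2
      have h3 : nrm (i.comp ((c : K ≃+* K) : K →+* K)) A' = nrm i A := by
        have h2 := n2i τ A
        rw [hei] at h2
        exact h2
      have h4 := n3i (c : K ≃+* K) A'
      rw [h3] at h4
      have h5 : ψ (ClassGroup.mk0 I') = (ψ (ClassGroup.mk0 I))⁻¹ := by
        refine hconj I I' ?_
        rw [hI]
        exact h4.symm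
      have h6 : ψ (ClassGroup.mk0 I') = ψ (ClassGroup.mk0 J) := hcon A0' I' J rfl h1.symm
      have h7 : ψ (ClassGroup.mk0 I) * ψ (ClassGroup.mk0 I) =
          (ψ (ClassGroup.mk0 I))⁻¹ * ψ (ClassGroup.mk0 I) := by
        rw [← h5, h6, ← hIJ]
      rw [h7]
      exact inv_mul_cancel _
  obtain ⟨m, hm1, hm2, hm3⟩ := hNRD K F i j hcl
  have hdvd : 2 * m ∣ Nx k := by
    unfold Nx
    refine Nat.mul_dvd_mul_left 2 (Nat.dvd_factorial hm1 ?_)
    rw [← finrank_K hBRK k K D h]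
    exact hm2
  obtain ⟨q, hq⟩ := hdvd
  refine MonoidHom.ext fun g => ?_
  obtain ⟨I, rfl⟩ := ClassGroup.mk0_surjective g
  have hI0 : (I : Ideal (𝓞 K)) ≠ ⊥ := nonZeroDivisors.coe_ne_zero I
  have h1 := hz _ (map_ne_bot i hI0) (I ^ m) (by
    rw [hm3]
    rfl)
  have h2 : ψ (ClassGroup.mk0 I) ^ (2 * m) = 1 := by
    rw [map_pow, map_pow, ← pow_add] at h1
    rw [two_mul]
    exact h1
  rw [MonoidHom.pow_apply, hq, pow_mul, h2, one_pow, MonoidHom.one_apply]

end Pool.Agent.H83.NV
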