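import Pool.Agent.H95.NV.Targets4
import Pool.Agent.H31.CN.T6

/-!
# (PRM) the proportions
-/

set_option autoImplicit false

open MeasureTheory Set Filter NumberField
open scoped Real nonZeroDivisors

namespace Pool.Agent.H83.NV

open Pool.Agent.H95.NV NumberField
open Pool.Agent.H31.CN (IsLf NV Mt)
open Pool.Agent.H89.NV (TrK prp CK tp)

theorem prm_nve (hENT : Pool.Agent.H31.CN.T_ENT) (K : Type) [Field K] [NumberField K]
    (hK : 2 ≤ Module.finrank ℚ K) (ψ : ClassGroup (𝓞 K) →* ℂˣ) (h1 : ψ ≠ 1) (h : NV K ψ) :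
    NVE K ψ := by
  obtain ⟨F, hF, hF0⟩ := h
  obtain ⟨Λ, hΛ1, hΛ2, hΛ3⟩ := hENT K hK ψ h1 F hF
  refine ⟨Λ, hΛ1, fun s hs => ?_, ?_⟩
  · rw [hΛ2 s hs]
    exact hF.2 s hs
  · rw [hΛ3]
    exact hF0

theorem pf_PRM (hMCK : T_MCK) (hCHC : T_CHC) (hBRK : T_BRK) (hENT : Pool.Agent.H31.CN.T_ENT) :
    T_PRM := by
  intro k K _ _ _ _ _ _ D h htp
  have hfin : Finite (ClassGroup (𝓞 K) →* ℂˣ) := (hCHC k K).2.1
  have hK : 2 ≤ Module.finrank ℚ K := by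
    have hq : Algebra.IsQuadraticExtension k K := ((hBRK k K D).1 h).1
    have h1 := Module.finrank_mul_finrank ℚ k K
    have h2 : Module.finrank k K = 2 := Algebra.IsQuadraticExtension.finrank_eq_two k K
    have h3 : 0 < Module.finrank ℚ k := Module.finrank_pos
    rw [h2] at h1
    omega
  refine ⟨⟨?_, ?_⟩, ?_⟩
  · unfold prM
    positivity
  · intro hexc
    have hcard : Nat.card {ψ : ClassGroup (𝓞 K) →* ℂˣ // TrK k K ψ ∧ NV K ψ} ≤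
        Nat.card {ψ : ClassGroup (𝓞 K) →* ℂˣ // TrK k K ψ ∧ ψ ^ Nx k = 1} +
        Nat.card {ψ : ClassGroup (𝓞 K) →* ℂˣ // TrK k K ψ ∧ Mackey K ψ ∧ NVE K ψ} := by
      have hsub : {ψ : ClassGroup (𝓞 K) →* ℂˣ | TrK k K ψ ∧ NV K ψ} ⊆
          {ψ : ClassGroup (𝓞 K) →* ℂˣ | TrK k K ψ ∧ ψ ^ Nx k = 1} ∪
          {ψ : ClassGroup (𝓞 K) →* ℂˣ | TrK k K ψ ∧ Mackey K ψ ∧ NVE K ψ} := by
        rintro ψ ⟨h1, h2⟩
        by_cases h3 : ψ ^ Nx k = 1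
        · exact Or.inl ⟨h1, h3⟩
        · refine Or.inr ⟨h1, hMCK k K D h htp hexc ψ h1 h3, prm_nve hENT K hK ψ ?_ h2⟩
          rintro rfl
          refine h3 (MonoidHom.ext fun g => ?_)
          rw [MonoidHom.pow_apply, MonoidHom.one_apply, one_pow]
      exact (Set.ncard_le_ncard hsub (Set.toFinite _)).trans (Set.ncard_union_le _ _)
    have hc : (Nat.card {ψ : ClassGroup (𝓞 K) →* ℂˣ // TrK k K ψ ∧ NV K ψ} : ℝ) ≤
        Nat.card {ψ : ClassGroup (𝓞 K) →* ℂˣ // TrK k K ψ ∧ ψ ^ Nx k = 1} +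
        Nat.card {ψ : ClassGroup (𝓞 K) →* ℂˣ // TrK k K ψ ∧ Mackey K ψ ∧ NVE K ψ} := by
      exact_mod_cast hcard
    have h4 : prp k K ≤ rcN k (Nx k) K + prM k K := by
      unfold prp rcN prM
      rw [← add_div]
      exact div_le_div_of_nonneg_right hc (Nat.cast_nonneg _)
    linarith
  · unfold prp
    refine div_le_one_of_le₀ ?_ (Nat.cast_nonneg _)
    have hsub : {ψ : ClassGroup (𝓞 K) →* ℂˣ | TrK k K ψ ∧ NV K ψ} ⊆
        {ψ : ClassGroup (𝓞 K) →* ℂˣ | TrK k K ψ} := fun ψ hψ => hψ.1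
    exact_mod_cast Set.ncard_le_ncard hsub (Set.toFinite _)

end Pool.Agent.H83.NV
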